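import Mathlib

/-!
# MP_ebdc6e_an: no constant below two in the OSSS inequality for fractional query algorithms

For the conjunction `AND_n` of `n` bits: the OSSS inequality fails for every `n ≥ 2`, and for
every constant `C < 2` the inequality `Var(f) ≤ C ∑ δ_i Inf_i(f)` fails for all large `n`. The
algorithms compute `AND_n` with zero error, with the harmonic extension as output map. For all
algorithms of this kind `Var(AND_n) ≤ 2 (1 - 2^{-n}) ∑ δ_i Inf_i(AND_n)`, so that the constant `2`
is exact for conjunctions.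

The algorithm: for `0 < a ≤ 1` the bits are treated one after the other; the current bit jumps
from `0` to `a` or to `-1`; in the second case the algorithm stops. If all bits are at `a` they are
all revealed. Here `∑ δ_i = (1 + a) - (1 + a)^{-n} (1 + a + n a² - n)`.
-/

set_option autoImplicit false

open MeasureTheory Filter Topology

namespace Pool.Agent.Results.MP_ebdc6e_an.EveryConstantBelowTwo

/-- The bits are `true`, `false`; they stand for `1`, `-1`. -/
def sgn (b : Bool) : ℝ := if b then 1 else -1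

/-- A point of the cube `{-1,1}^n` as a vector of real numbers. -/
def vec {n : ℕ} (x : Fin n → Bool) : Fin n → ℝ := fun i => sgn (x i)

/-- A fractional query algorithm for uniform inputs, in discrete time. The filtration is the
natural filtration of the process `X`, and `Xinf` is the terminal value `X(∞)`. -/
structure FractionalQueryAlgorithm (n : ℕ) where
  /-- the probability space -/
  Ω : Type
  /-- its σ-algebra -/
  mΩ : MeasurableSpace Ω
  /-- its probability measure -/
  P : Measure Ω
  prob : IsProbabilityMeasure P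
  /-- the process `X(t)` -/
  X : ℕ → Ω → (Fin n → ℝ)
  meas : ∀ t, StronglyMeasurable (X t)
  /-- the terminal value `X(∞)` -/
  Xinf : Ω → (Fin n → ℝ)
  range : ∀ t ω i, X t ω i ∈ Set.Icc (-1 : ℝ) 1
  start : ∀ ω, X 0 ω = 0
  terminal : ∀ᵐ ω ∂P, Tendsto (fun t => X t ω) atTop (𝓝 (Xinf ω))
  law : ∀ x : Fin n → Bool, P {ω | Xinf ω = vec x} = ((2 : ENNReal) ^ n)⁻¹
  martingale : Martingale X (Filtration.natural X meas) P
  martingale_prod : ∀ S : Finset (Fin n),
    Martingale (fun t ω => ∏ i ∈ S, X t ω i) (Filtration.natural X meas) P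
  /-- the stopping time `τ` -/
  τ : Ω → WithTop ℕ
  stopping : IsStoppingTime (Filtration.natural X meas) τ
  /-- the output map -/
  A : (Fin n → ℝ) → ℝ

namespace FractionalQueryAlgorithm

variable {n : ℕ} (Q : FractionalQueryAlgorithm n)

/-- `X(τ)`, where `X(∞)` is the terminal value. -/
noncomputable def stopped (ω : Q.Ω) : Fin n → ℝ :=
  if Q.τ ω = ⊤ then Q.Xinf ω else Q.X (Q.τ ω).untopA ω

/-- The revealment `δ_i = E[X_i(τ)^2]` (recall `X(0) = 0`). -/
noncomputable def revealment (i : Fin n) : ℝ :=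
  @integral Q.Ω ℝ _ _ Q.mΩ Q.P (fun ω => (Q.stopped ω i) ^ 2)

/-- `Q` computes `f` with `0` error: `A(X(τ)) = f(X(∞))` almost surely. -/
def Computes (f : (Fin n → Bool) → Bool) : Prop :=
  ∀ᵐ ω ∂(Q.P), ∀ x : Fin n → Bool, Q.Xinf ω = vec x → Q.A (Q.stopped ω) = sgn (f x)

end FractionalQueryAlgorithm

/-- The mean of `f` under the uniform measure. -/
noncomputable def mean {n : ℕ} (f : (Fin n → Bool) → Bool) : ℝ :=
  (∑ x, sgn (f x)) / 2 ^ n

/-- The variance of `f` under the uniform measure. -/
noncomputable def variance {n : ℕ} (f : (Fin n → Bool) → Bool) : ℝ :=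
  (∑ x, (sgn (f x) - mean f) ^ 2) / 2 ^ n

/-- The influence `μ{x : f(x) ≠ f(x with the i-th bit flipped)}`. -/
noncomputable def influence {n : ℕ} (f : (Fin n → Bool) → Bool) (i : Fin n) : ℝ :=
  ((Finset.univ.filter fun x : Fin n → Bool =>
    f x ≠ f (Function.update x i (!(x i)))).card : ℝ) / 2 ^ n

/-- The harmonic (multilinear) extension of `f` to `ℝ^n`. -/
noncomputable def harmonicExtension {n : ℕ} (f : (Fin n → Bool) → Bool) (y : Fin n → ℝ) : ℝ :=
  ∑ x, sgn (f x) * ∏ i, ((1 + sgn (x i) * y i) / 2)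

/-- The conjunction `AND_n` of `n` bits. -/
def conj (n : ℕ) (x : Fin n → Bool) : Bool := decide (∀ i, x i = true)

/-! ### sums over the cube -/

lemma sgn_mem (b : Bool) : sgn b ∈ Set.Icc (-1 : ℝ) 1 := by
  cases b <;> simp [sgn]

lemma vec_inj {n : ℕ} {x y : Fin n → Bool} (h : vec x = vec y) : x = y := by
  funext i
  have := congrFun h i
  simp only [vec, sgn] at this
  cases hx : x i <;> cases hy : y i <;> simp [hx, hy] at this ⊢ <;> norm_num at this

/-- the product weights -/
noncomputable def pw {n : ℕ} (y : Fin n → ℝ) (x : Fin n → Bool) : ℝ :=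
  ∏ i, ((1 + sgn (x i) * y i) / 2)

lemma pw_nonneg {n : ℕ} {y : Fin n → ℝ} (hy : ∀ i, y i ∈ Set.Icc (-1 : ℝ) 1)
    (x : Fin n → Bool) : 0 ≤ pw y x := by
  refine Finset.prod_nonneg fun i _ => ?_
  have h := hy i
  have e : sgn (x i) = 1 ∨ sgn (x i) = -1 := by cases x i <;> simp [sgn]
  rcases e with e | e <;> rw [e] <;> linarith [h.1, h.2]

lemma sum_pw_prod {n : ℕ} (y : Fin n → ℝ) (S : Finset (Fin n)) :
    ∑ x, pw y x * ∏ i ∈ S, sgn (x i) = ∏ i ∈ S, y i := by
  classical
  have e1 : ∀ x : Fin n → Bool, pw y x * ∏ i ∈ S, sgn (x i)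
      = ∏ i, ((1 + sgn (x i) * y i) / 2 * (if i ∈ S then sgn (x i) else 1)) := by
    intro x
    rw [Finset.prod_mul_distrib, pw]
    congr 1
    rw [Finset.prod_ite_mem, Finset.univ_inter]
  simp_rw [e1]
  rw [← Fintype.prod_sum (fun (i : Fin n) (b : Bool) =>
    (1 + sgn b * y i) / 2 * (if i ∈ S then sgn b else 1))]
  have e2 : ∀ i : Fin n, ∑ b : Bool, (1 + sgn b * y i) / 2 * (if i ∈ S then sgn b else 1)
      = if i ∈ S then y i else 1 := by
    intro i
    rw [Fintype.sum_bool]
    by_cases h : i ∈ S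
    · simp only [h, if_true, sgn]
      norm_num
      ring
    · simp only [h, if_false, sgn]
      norm_num
      ring
  simp_rw [e2]
  rw [Finset.prod_ite_mem, Finset.univ_inter]

lemma sum_pw {n : ℕ} (y : Fin n → ℝ) : ∑ x, pw y x = 1 := by
  have := sum_pw_prod y ∅
  simpa using this

/-! ### one-jump algorithms -/

/-- a law on `[-1,1]^n` with finite support all of whose mixed moments vanish -/
structure Jump (n : ℕ) where
  J : Type
  fin : Fintype J
  w : J → ℝ
  x : J → Fin n → ℝ
  w_nonneg : ∀ j, 0 ≤ w j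
  x_mem : ∀ j i, x j i ∈ Set.Icc (-1 : ℝ) 1
  bal : ∀ S : Finset (Fin n), ∑ j, w j * ∏ i ∈ S, x j i = if S = ∅ then 1 else 0

namespace Jump

variable {n : ℕ} (D : Jump n)

instance : Fintype D.J := D.fin

/-- the sample space -/
abbrev Om : Type := D.J × (Fin n → Bool)

instance : MeasurableSpace D.Om := ⊤

instance : DiscreteMeasurableSpace D.Om := ⟨fun _ => trivial⟩

/-- weights -/
noncomputable def wt (ω : D.Om) : ℝ := D.w ω.1 * pw (D.x ω.1) ω.2

lemma wt_nonneg (ω : D.Om) : 0 ≤ D.wt ω :=
  mul_nonneg (D.w_nonneg _) (pw_nonneg (D.x_mem _) _)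

/-- the probability measure -/
noncomputable def PP : Measure D.Om :=
  Measure.sum fun ω : D.Om => ENNReal.ofReal (D.wt ω) • Measure.dirac ω

lemma PP_apply (s : Set D.Om) :
    D.PP s = ∑ ω : D.Om, ENNReal.ofReal (D.wt ω) * s.indicator 1 ω := by
  unfold PP
  rw [Measure.sum_apply _ (MeasurableSet.of_discrete), tsum_fintype]
  refine Finset.sum_congr rfl fun ω _ => ?_
  rw [Measure.smul_apply, Measure.dirac_apply' _ (MeasurableSet.of_discrete), smul_eq_mul]

lemma PP_singleton (ω : D.Om) : D.PP {ω} = ENNReal.ofReal (D.wt ω) := by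
  classical
  rw [PP_apply, Finset.sum_eq_single ω]
  · simp
  · intro b _ hb
    rw [Set.indicator_of_notMem (by simpa using hb), mul_zero]
  · intro h; exact absurd (Finset.mem_univ _) h

lemma w_sum : ∑ j, D.w j = 1 := by
  have := D.bal ∅
  simpa using this

lemma sum_wt : ∑ ω : D.Om, D.wt ω = 1 := by
  rw [Fintype.sum_prod_type]
  simp only [wt]
  simp_rw [← Finset.mul_sum, sum_pw, mul_one]
  exact D.w_sum

instance : IsProbabilityMeasure D.PP := by
  constructor
  rw [PP_apply]
  simp only [Set.indicator_univ, Pi.one_apply, mul_one]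
  rw [← ENNReal.ofReal_sum_of_nonneg (fun ω _ => D.wt_nonneg ω), D.sum_wt, ENNReal.ofReal_one]

lemma real_singleton (ω : D.Om) : D.PP.real {ω} = D.wt ω := by
  rw [Measure.real, PP_singleton, ENNReal.toReal_ofReal (D.wt_nonneg ω)]

lemma integral_PP {E : Type*} [NormedAddCommGroup E] [NormedSpace ℝ E] [CompleteSpace E]
    (g : D.Om → E) : ∫ ω, g ω ∂D.PP = ∑ ω : D.Om, D.wt ω • g ω := by
  rw [integral_fintype Integrable.of_finite]
  simp only [real_singleton]

/-- the process -/
noncomputable def XX : ℕ → D.Om → (Fin n → ℝ)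
  | 0, _ => 0
  | 1, ω => D.x ω.1
  | _ + 2, ω => vec ω.2

lemma XX_meas (t : ℕ) : StronglyMeasurable (D.XX t) := StronglyMeasurable.of_discrete

/-- the information at the times `0` and `1` -/
def info : ℕ → D.Om → Option D.J
  | 0, _ => none
  | _ + 1, ω => some ω.1

lemma natural_le (t : ℕ) (ht : t ≤ 1) :
    (Filtration.natural D.XX D.XX_meas t : MeasurableSpace D.Om) ≤
      MeasurableSpace.comap (D.info t) ⊤ := by
  refine iSup₂_le fun j hj => ?_
  obtain ⟨h, hh⟩ : ∃ h : Option D.J → (Fin n → ℝ), D.XX j = h ∘ D.info t := by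
    have key : ∀ ω ω' : D.Om, D.info t ω = D.info t ω' → D.XX j ω = D.XX j ω' := by
      intro ω ω' hω
      interval_cases t <;> interval_cases j
      · rfl
      · rfl
      · simp only [info, Option.some.injEq] at hω
        simp only [XX, hω]
    obtain ⟨h, hh⟩ := (Function.factorsThrough_iff (f := D.info t) (D.XX j)).1
      (fun ω ω' => key ω ω')
    exact ⟨h, hh⟩
  rw [hh, ← MeasurableSpace.comap_comp]
  exact MeasurableSpace.comap_mono le_top

/-- the martingale property of a function of the process -/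
lemma mart_of {E : Type*} [NormedAddCommGroup E] [NormedSpace ℝ E] [CompleteSpace E]
    (F : (Fin n → ℝ) → E) (hF : Continuous F)
    (h0 : ∑ j, D.w j • F (D.x j) = F 0)
    (h1 : ∀ j, ∑ z, pw (D.x j) z • F (vec z) = F (D.x j)) :
    Martingale (fun t ω => F (D.XX t ω)) (Filtration.natural D.XX D.XX_meas) D.PP := by
  have h : ∀ t, t ≤ 1 → ∀ a : Option D.J, ∀ [DecidableEq (Option D.J)],
      ∑ ω : D.Om, (if D.info t ω = a then D.wt ω • (F (D.XX (t + 1) ω) - F (D.XX t ω)) else 0)
        = 0 := by
    intro t ht a _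
    interval_cases t
    · cases a with
      | some j => simp [info]
      | none =>
        simp only [info, if_true, XX]
        simp_rw [smul_sub]
        rw [Finset.sum_sub_distrib, ← Finset.sum_smul, D.sum_wt, one_smul, sub_eq_zero, ← h0,
          Fintype.sum_prod_type]
        refine Finset.sum_congr rfl fun j _ => ?_
        simp only [wt]
        rw [← Finset.sum_smul, ← Finset.mul_sum, sum_pw, mul_one]
    · cases a with
      | none => simp [info]
      | some j =>
        simp only [info, Option.some.injEq, XX]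
        rw [Fintype.sum_prod_type, Finset.sum_eq_single j]
        · simp only [if_true, wt]
          simp_rw [smul_sub, mul_smul]
          rw [Finset.sum_sub_distrib, ← Finset.smul_sum, ← Finset.smul_sum, h1 j,
            ← Finset.sum_smul, sum_pw, one_smul, sub_self]
        · intro b _ hb
          simp [hb]
        · intro hn; exact absurd (Finset.mem_univ _) hn
  classical
  refine martingale_of_setIntegral_eq_succ (fun t => ?_) (fun t => Integrable.of_finite) ?_
  · exact hF.comp_stronglyMeasurable (Filtration.stronglyAdapted_natural D.XX_meas t)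
  · intro t s hs
    rcases Nat.lt_or_ge 1 t with h2 | h2
    · have e : ∀ ω, D.XX t ω = D.XX (t + 1) ω := by
        intro ω
        obtain ⟨j, rfl⟩ : ∃ j, t = j + 2 := ⟨t - 2, by omega⟩
        rfl
      simp only [e]
    · obtain ⟨B, -, rfl⟩ := D.natural_le t h2 s hs
      have hms : MeasurableSet (D.info t ⁻¹' B) := MeasurableSet.of_discrete
      rw [← sub_eq_zero, ← integral_sub Integrable.of_finite Integrable.of_finite,
        ← integral_indicator hms, integral_PP]
      have e : ∀ ω : D.Om, D.wt ω • (D.info t ⁻¹' B).indicator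
          (fun ω => F (D.XX t ω) - F (D.XX (t + 1) ω)) ω =
          - ∑ a : Option D.J, (if a ∈ B then 1 else 0 : ℝ) •
            (if D.info t ω = a then D.wt ω • (F (D.XX (t + 1) ω) - F (D.XX t ω)) else 0) := by
        intro ω
        rw [Finset.sum_eq_single (D.info t ω)]
        · rw [if_pos rfl]
          by_cases hB : D.info t ω ∈ B
          · rw [Set.indicator_of_mem (by exact hB), if_pos hB, one_smul, ← smul_neg, neg_sub]
          · rw [Set.indicator_of_notMem (by exact hB), if_neg hB, zero_smul, smul_zero, neg_zero]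
        · intro b _ hb
          rw [if_neg (Ne.symm hb), smul_zero]
        · intro hn; exact absurd (Finset.mem_univ _) hn
      simp only [e]
      rw [Finset.sum_neg_distrib, Finset.sum_comm, neg_eq_zero]
      refine Finset.sum_eq_zero fun a _ => ?_
      rw [← Finset.smul_sum, h t h2 a, smul_zero]

lemma mart_prod (S : Finset (Fin n)) :
    Martingale (fun t ω => ∏ i ∈ S, D.XX t ω i) (Filtration.natural D.XX D.XX_meas) D.PP := by
  refine D.mart_of (fun x => ∏ i ∈ S, x i) (by fun_prop) ?_ ?_
  · simp only [smul_eq_mul, D.bal S, Pi.zero_apply]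
    by_cases h : S = ∅
    · simp [h]
    · rw [if_neg h]
      obtain ⟨i, hi⟩ := Finset.nonempty_iff_ne_empty.2 h
      exact (Finset.prod_eq_zero hi rfl).symm
  · intro j
    simp only [smul_eq_mul, vec]
    exact sum_pw_prod _ _

lemma mart_X : Martingale D.XX (Filtration.natural D.XX D.XX_meas) D.PP := by
  refine D.mart_of (fun x => x) continuous_id ?_ ?_
  · ext i
    rw [Finset.sum_apply]
    have := D.bal {i}
    simpa using this
  · intro j
    ext i
    rw [Finset.sum_apply]
    have := sum_pw_prod (D.x j) {i}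
    simpa [vec] using this

lemma law (x : Fin n → Bool) : D.PP {ω | vec ω.2 = vec x} = ((2 : ENNReal) ^ n)⁻¹ := by
  classical
  have e0 : {ω : D.Om | vec ω.2 = vec x} = {ω | ω.2 = x} := by
    ext ω
    exact ⟨fun h => vec_inj h, fun h => by simp only [Set.mem_ofPred_eq] at h ⊢; rw [h]⟩
  have e1 : ∑ j, D.w j * pw (D.x j) x = (1 / 2) ^ n := by
    have e2 : ∀ j, pw (D.x j) x
        = ∑ S ∈ (Finset.univ : Finset (Fin n)).powerset,
          (1 / 2 : ℝ) ^ n * (∏ i ∈ S, sgn (x i)) * ∏ i ∈ S, D.x j i := by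
      intro j
      unfold pw
      have : ∀ i, (1 + sgn (x i) * D.x j i) / 2 = 1 / 2 * (sgn (x i) * D.x j i + 1) := by
        intro i; ring
      simp_rw [this]
      rw [Finset.prod_mul_distrib, Finset.prod_const, Finset.prod_add, Finset.mul_sum]
      simp only [Finset.prod_const_one, mul_one, Finset.card_univ, Fintype.card_fin]
      refine Finset.sum_congr rfl fun S _ => ?_
      rw [Finset.prod_mul_distrib, mul_assoc]
    simp_rw [e2, Finset.mul_sum]
    rw [Finset.sum_comm]
    have e3 : ∀ S : Finset (Fin n), ∑ j, D.w j * ((1 / 2 : ℝ) ^ n * (∏ i ∈ S, sgn (x i))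
        * ∏ i ∈ S, D.x j i) = (1 / 2 : ℝ) ^ n * (∏ i ∈ S, sgn (x i)) * (if S = ∅ then 1 else 0) := by
      intro S
      rw [← D.bal S, Finset.mul_sum]
      refine Finset.sum_congr rfl fun j _ => ?_
      ring
    simp_rw [e3]
    rw [Finset.sum_eq_single ∅]
    · simp
    · intro S _ hS
      rw [if_neg hS, mul_zero]
    · intro h
      exact absurd (Finset.mem_powerset.2 (Finset.empty_subset _)) h
  rw [e0, PP_apply]
  have e4 : ∀ ω : D.Om, ENNReal.ofReal (D.wt ω) * ({ω : D.Om | ω.2 = x}.indicator 1 ω)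
      = ENNReal.ofReal (if ω.2 = x then D.wt ω else 0) := by
    intro ω
    by_cases h : ω.2 = x
    · rw [if_pos h, Set.indicator_of_mem (by exact h), Pi.one_apply, mul_one]
    · rw [if_neg h, Set.indicator_of_notMem (by exact h), mul_zero, ENNReal.ofReal_zero]
  simp_rw [e4]
  rw [← ENNReal.ofReal_sum_of_nonneg (fun ω _ => by split_ifs; exacts [D.wt_nonneg ω, le_rfl]),
    Fintype.sum_prod_type]
  simp only [wt, Finset.sum_ite_eq', Finset.mem_univ, if_true]
  rw [e1, ENNReal.ofReal_pow (by norm_num), ENNReal.inv_pow]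
  congr 1
  rw [one_div, ENNReal.ofReal_inv_of_pos (by norm_num)]
  norm_num

/-- the algorithm -/
noncomputable def alg (f : (Fin n → Bool) → Bool) : FractionalQueryAlgorithm n where
  Ω := D.Om
  mΩ := ⊤
  P := D.PP
  prob := inferInstance
  X := D.XX
  meas := D.XX_meas
  Xinf := fun ω => vec ω.2
  range := by
    intro t ω i
    match t with
    | 0 => simp [XX]
    | 1 => exact D.x_mem _ _
    | _ + 2 => exact sgn_mem _
  start := fun _ => rfl
  terminal := by
    refine Eventually.of_forall fun ω => ?_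
    apply tendsto_const_nhds.congr'
    filter_upwards [eventually_ge_atTop 2] with t ht
    obtain ⟨j, rfl⟩ : ∃ j, t = j + 2 := ⟨t - 2, by omega⟩
    rfl
  law := D.law
  martingale := D.mart_X
  martingale_prod := D.mart_prod
  τ := fun _ => ((1 : ℕ) : WithTop ℕ)
  stopping := isStoppingTime_const _ _
  A := harmonicExtension f

lemma stopped_eq (f : (Fin n → Bool) → Bool) (ω : D.Om) : (D.alg f).stopped ω = D.x ω.1 := by
  have h : ¬ ((D.alg f).τ ω = ⊤) := WithTop.coe_ne_top
  exact (if_neg h).trans rfl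

lemma revealment_eq (f : (Fin n → Bool) → Bool) (i : Fin n) :
    (D.alg f).revealment i = ∑ j, D.w j * D.x j i ^ 2 := by
  unfold FractionalQueryAlgorithm.revealment
  have h : (fun ω : D.Om => ((D.alg f).stopped ω i) ^ 2) = fun ω => D.x ω.1 i ^ 2 := by
    ext ω
    exact congrArg (fun v : Fin n → ℝ => v i ^ 2) (D.stopped_eq f ω)
  have h2 : ∫ ω, ((D.alg f).stopped ω i) ^ 2 ∂D.PP = ∑ j, D.w j * D.x j i ^ 2 := by
    rw [h, integral_PP, Fintype.sum_prod_type]
    refine Finset.sum_congr rfl fun j _ => ?_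
    simp only [smul_eq_mul, wt]
    rw [← Finset.sum_mul, ← Finset.mul_sum, sum_pw, mul_one]
  exact h2

lemma computes (f : (Fin n → Bool) → Bool)
    (hf : ∀ j, ∃ v : Bool, ∀ y, pw (D.x j) y ≠ 0 → f y = v) : (D.alg f).Computes f := by
  have hae : ∀ᵐ ω ∂D.PP, D.wt ω ≠ 0 := by
    rw [ae_iff, PP_apply]
    refine Finset.sum_eq_zero fun ω _ => ?_
    by_cases h : D.wt ω = 0
    · rw [h, ENNReal.ofReal_zero, zero_mul]
    · rw [Set.indicator_of_notMem (by simpa using h), mul_zero]
  have h : ∀ᵐ ω ∂D.PP, ∀ x : Fin n → Bool, vec ω.2 = vec x →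
      harmonicExtension f ((D.alg f).stopped ω) = sgn (f x) := by
    filter_upwards [hae] with ω hω x hx
    obtain ⟨v, hv⟩ := hf ω.1
    have hx' : ω.2 = x := vec_inj hx
    have h1 : pw (D.x ω.1) x ≠ 0 := by
      rw [← hx']
      exact right_ne_zero_of_mul hω
    refine (congrArg (harmonicExtension f) (D.stopped_eq f ω)).trans ?_
    rw [hv x h1, harmonicExtension]
    have h2 : ∀ y : Fin n → Bool, sgn (f y) * ∏ i, ((1 + sgn (y i) * D.x ω.1 i) / 2)
        = sgn v * pw (D.x ω.1) y := by
      intro y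
      by_cases h : pw (D.x ω.1) y = 0
      · have h' : ∏ i, ((1 + sgn (y i) * D.x ω.1 i) / 2) = 0 := h
        rw [h, h', mul_zero, mul_zero]
      · rw [hv y h]
        rfl
    simp_rw [h2]
    rw [← Finset.mul_sum, sum_pw, mul_one]
  exact h

end Jump

/-! ### the algorithm for the conjunction -/

/-- the points at which the algorithm stops with the output `-1` before all bits are at `a` -/
noncomputable def pt (n : ℕ) (a : ℝ) (t i : Fin n) : ℝ :=
  if i < t then a else if i = t then -1 else 0

/-- the point at which the first `t` bits are at `a` -/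
noncomputable def st (n : ℕ) (a : ℝ) (t : ℕ) (i : Fin n) : ℝ := if (i : ℕ) < t then a else 0

lemma step {n : ℕ} {a r : ℝ} (hr : r * (1 + a) = 1) (S : Finset (Fin n)) (t : Fin n) :
    a * r ^ ((t : ℕ) + 1) * ∏ i ∈ S, pt n a t i
      = r ^ (t : ℕ) * ∏ i ∈ S, st n a t i - r ^ ((t : ℕ) + 1) * ∏ i ∈ S, st n a (t + 1) i := by
  classical
  have hr' : r ^ (t : ℕ) = r ^ ((t : ℕ) + 1) * (1 + a) := by
    rw [pow_succ, mul_assoc, hr, mul_one]
  have e1 : ∀ i : Fin n, i ≠ t → pt n a t i = st n a t i := by
    intro i hi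
    unfold pt st
    rw [if_neg hi]
    rfl
  have e2 : ∀ i : Fin n, i ≠ t → st n a (t + 1) i = st n a t i := by
    intro i hi
    unfold st
    have h : (i : ℕ) ≠ t := fun h => hi (Fin.ext h)
    have : (i : ℕ) < t + 1 ↔ (i : ℕ) < t := by omega
    simp only [this]
  by_cases h : t ∈ S
  · have f1 : ∏ i ∈ S, pt n a t i = - ∏ i ∈ S.erase t, st n a t i := by
      rw [← Finset.mul_prod_erase S _ h]
      have : pt n a t t = -1 := by simp [pt]
      rw [this, neg_one_mul]
      congr 1
      exact Finset.prod_congr rfl fun i hi => e1 i (Finset.ne_of_mem_erase hi)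
    have f2 : ∏ i ∈ S, st n a t i = 0 := by
      apply Finset.prod_eq_zero h
      simp [st]
    have f3 : ∏ i ∈ S, st n a (t + 1) i = a * ∏ i ∈ S.erase t, st n a t i := by
      rw [← Finset.mul_prod_erase S _ h]
      have : st n a (t + 1) t = a := by simp [st]
      rw [this]
      congr 1
      exact Finset.prod_congr rfl fun i hi => e2 i (Finset.ne_of_mem_erase hi)
    rw [f1, f2, f3]
    ring
  · have f1 : ∏ i ∈ S, pt n a t i = ∏ i ∈ S, st n a t i :=
      Finset.prod_congr rfl fun i hi => e1 i fun hit => h (hit ▸ hi)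
    have f3 : ∏ i ∈ S, st n a (t + 1) i = ∏ i ∈ S, st n a t i :=
      Finset.prod_congr rfl fun i hi => e2 i fun hit => h (hit ▸ hi)
    rw [f1, f3, hr']
    ring

/-- the law of `X(τ)` -/
noncomputable def andJump (n : ℕ) {a r : ℝ} (ha0 : 0 ≤ a) (ha1 : a ≤ 1) (hr0 : 0 ≤ r)
    (hr : r * (1 + a) = 1) : Jump n where
  J := Fin n ⊕ (Fin n → Bool)
  fin := inferInstance
  w := Sum.elim (fun t => a * r ^ ((t : ℕ) + 1)) (fun z => r ^ n * pw (fun _ => a) z)
  x := Sum.elim (fun t => pt n a t) (fun z => vec z)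
  w_nonneg := by
    rintro (t | z)
    · simp only [Sum.elim_inl]
      positivity
    · simp only [Sum.elim_inr]
      exact mul_nonneg (by positivity) (pw_nonneg (fun _ => ⟨by linarith, ha1⟩) z)
  x_mem := by
    rintro (t | z) i
    · simp only [Sum.elim_inl, pt]
      split_ifs
      · exact ⟨by linarith, ha1⟩
      · simp
      · simp
    · simp only [Sum.elim_inr]
      exact sgn_mem _
  bal := by
    intro S
    rw [Fintype.sum_sum_type]
    simp only [Sum.elim_inl, Sum.elim_inr]
    have h1 : ∑ z, r ^ n * pw (fun _ => a) z * ∏ i ∈ S, (vec z : Fin n → ℝ) i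
        = r ^ n * ∏ i ∈ S, st n a n i := by
      simp_rw [mul_assoc]
      rw [← Finset.mul_sum]
      have := sum_pw_prod (fun _ : Fin n => a) S
      simp only [vec]
      rw [this]
      congr 1
      refine Finset.prod_congr rfl fun i _ => ?_
      simp [st]
    rw [h1, Finset.sum_congr rfl (fun t _ => step hr S t),
      Fin.sum_univ_eq_sum_range (fun t => r ^ t * ∏ i ∈ S, st n a t i
        - r ^ (t + 1) * ∏ i ∈ S, st n a (t + 1) i) n,
      Finset.sum_range_sub' (fun t => r ^ t * ∏ i ∈ S, st n a t i)]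
    simp only [pow_zero, one_mul, sub_add_cancel]
    by_cases h : S = ∅
    · simp [h]
    · rw [if_neg h]
      obtain ⟨i, hi⟩ := Finset.nonempty_iff_ne_empty.2 h
      exact Finset.prod_eq_zero hi (by simp [st])

lemma sum_cost {a r : ℝ} (hr : r * (1 + a) = 1) (n : ℕ) :
    ∑ t ∈ Finset.range n, a * r ^ (t + 1) * (1 + t * a ^ 2)
      = 1 + a - r ^ n * (1 + a + n * a ^ 2) := by
  induction n with
  | zero => simp
  | succ n ih =>
    rw [Finset.sum_range_succ, ih]
    have hr' : r ^ n = r ^ (n + 1) * (1 + a) := by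
      rw [pow_succ, mul_assoc, hr, mul_one]
    rw [hr']
    push_cast
    ring

lemma sum_sq_pt (n : ℕ) (a : ℝ) (t : Fin n) : ∑ i, pt n a t i ^ 2 = 1 + t * a ^ 2 := by
  have e : ∀ i : Fin n, pt n a t i ^ 2 = (if i < t then a ^ 2 else 0) + if i = t then 1 else 0 := by
    intro i
    unfold pt
    by_cases h1 : i < t
    · rw [if_pos h1, if_pos h1, if_neg h1.ne, add_zero]
    · rw [if_neg h1, if_neg h1]
      by_cases h2 : i = t
      · simp [h2]
      · simp [h2]
  simp_rw [e]
  rw [Finset.sum_add_distrib, Finset.sum_ite_eq', if_pos (Finset.mem_univ _), ← Finset.sum_filter,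
    Finset.sum_const, nsmul_eq_mul]
  have : (Finset.univ.filter fun i : Fin n => i < t).card = t := by
    have h : (Finset.univ.filter fun i : Fin n => i < t) = Finset.Iio t := by
      ext i
      simp
    rw [h, Fin.card_Iio]
  rw [this]
  ring

/-- the sum of the revealments -/
lemma sum_revealment (n : ℕ) {a r : ℝ} (ha0 : 0 ≤ a) (ha1 : a ≤ 1) (hr0 : 0 ≤ r)
    (hr : r * (1 + a) = 1) (f : (Fin n → Bool) → Bool) :
    ∑ i, ((andJump n ha0 ha1 hr0 hr).alg f).revealment i
      = 1 + a - r ^ n * (1 + a + n * a ^ 2 - n) := by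
  simp_rw [Jump.revealment_eq]
  rw [Finset.sum_comm]
  simp_rw [← Finset.mul_sum]
  have e : ∀ g : Fin n ⊕ (Fin n → Bool) → ℝ,
      ∑ j : (andJump n ha0 ha1 hr0 hr).J, g j = ∑ t, g (Sum.inl t) + ∑ z, g (Sum.inr z) :=
    fun g => Fintype.sum_sum_type g
  refine (e (fun j => (andJump n ha0 ha1 hr0 hr).w j
    * ∑ i, (andJump n ha0 ha1 hr0 hr).x j i ^ 2)).trans ?_
  have e1 : ∀ t : Fin n, (andJump n ha0 ha1 hr0 hr).w (Sum.inl t)
      * ∑ i, (andJump n ha0 ha1 hr0 hr).x (Sum.inl t) i ^ 2
      = a * r ^ ((t : ℕ) + 1) * (1 + t * a ^ 2) := by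
    intro t
    rw [← sum_sq_pt n a t]
    rfl
  have e2 : ∀ z : Fin n → Bool, (andJump n ha0 ha1 hr0 hr).w (Sum.inr z)
      * ∑ i, (andJump n ha0 ha1 hr0 hr).x (Sum.inr z) i ^ 2
      = r ^ n * n * pw (fun _ => a) z := by
    intro z
    have : ∑ i, (vec z i : ℝ) ^ 2 = n := by
      have h : ∀ i, (vec z i : ℝ) ^ 2 = 1 := by
        intro i
        unfold vec
        cases z i <;> simp [sgn]
      simp [h]
    have h2 : (andJump n ha0 ha1 hr0 hr).w (Sum.inr z)
      * ∑ i, (andJump n ha0 ha1 hr0 hr).x (Sum.inr z) i ^ 2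
        = r ^ n * pw (fun _ => a) z * ∑ i, (vec z i : ℝ) ^ 2 := rfl
    rw [h2, this]
    ring
  simp_rw [e1, e2]
  rw [← Finset.mul_sum, sum_pw, mul_one,
    Fin.sum_univ_eq_sum_range (fun t => a * r ^ (t + 1) * (1 + t * a ^ 2)) n, sum_cost hr]
  ring

lemma and_computes (n : ℕ) {a r : ℝ} (ha0 : 0 ≤ a) (ha1 : a ≤ 1) (hr0 : 0 ≤ r)
    (hr : r * (1 + a) = 1) : ((andJump n ha0 ha1 hr0 hr).alg (conj n)).Computes (conj n) := by
  apply Jump.computes
  rintro (t | z)
  · refine ⟨false, fun y hy => ?_⟩
    simp only [conj, decide_eq_false_iff_not, not_forall]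
    refine ⟨t, fun hyt => hy ?_⟩
    refine Finset.prod_eq_zero (Finset.mem_univ t) ?_
    have : (andJump n ha0 ha1 hr0 hr).x (Sum.inl t) t = -1 := by
      change pt n a t t = -1
      simp [pt]
    rw [this, hyt]
    simp [sgn]
  · refine ⟨conj n z, fun y hy => ?_⟩
    have : y = z := by
      funext i
      by_contra hne
      apply hy
      refine Finset.prod_eq_zero (Finset.mem_univ i) ?_
      have h2 : (andJump n ha0 ha1 hr0 hr).x (Sum.inr z) i = sgn (z i) := rfl
      rw [h2]
      cases hy' : y i <;> cases hz' : z i <;> simp [sgn, hy', hz'] at hne ⊢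
    rw [this]

/-! ### the conjunction -/

lemma sum_conj (n : ℕ) (g : ℝ → ℝ) : ∑ x, g (sgn (conj n x)) = g 1 + (2 ^ n - 1) * g (-1) := by
  have e : ∀ x : Fin n → Bool, g (sgn (conj n x))
      = g (-1) + if x = (fun _ => true) then g 1 - g (-1) else 0 := by
    intro x
    by_cases h : x = fun _ => true
    · rw [if_pos h, h]
      simp [conj, sgn]
    · rw [if_neg h]
      have : conj n x = false := by
        simp only [conj, decide_eq_false_iff_not]
        exact fun h' => h (funext h')
      simp [this, sgn]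
  simp_rw [e]
  rw [Finset.sum_add_distrib, Finset.sum_ite_eq', if_pos (Finset.mem_univ _), Finset.sum_const,
    Finset.card_univ, Fintype.card_fun, Fintype.card_bool, Fintype.card_fin, nsmul_eq_mul]
  push_cast
  ring

lemma variance_conj (n : ℕ) : variance (conj n) = 4 / 2 ^ n * (1 - 1 / 2 ^ n) := by
  have hm : mean (conj n) = (2 - 2 ^ n) / 2 ^ n := by
    unfold mean
    rw [sum_conj n (fun x => x)]
    congr 1
    ring
  unfold variance
  rw [hm, sum_conj n (fun x => (x - (2 - 2 ^ n) / 2 ^ n) ^ 2)]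
  have : (2 : ℝ) ^ n ≠ 0 := by positivity
  field_simp
  ring

lemma influence_conj (n : ℕ) (i : Fin n) : influence (conj n) i = 2 / 2 ^ n := by
  classical
  unfold influence
  congr 1
  have e : (Finset.univ.filter fun x : Fin n → Bool =>
      conj n x ≠ conj n (Function.update x i (!(x i))))
      = {(fun _ => true), Function.update (fun _ => true) i false} := by
    ext x
    simp only [Finset.mem_filter, Finset.mem_univ, true_and, Finset.mem_insert,
      Finset.mem_singleton]
    constructor
    · intro h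
      by_cases hx : ∀ j, x j = true
      · left
        funext j
        exact hx j
      · right
        have h1 : conj n x = false := by simpa [conj] using hx
        rw [h1] at h
        have h2 : conj n (Function.update x i (!(x i))) = true := by
          cases hc : conj n (Function.update x i (!(x i)))
          · exact absurd hc.symm h
          · rfl
        simp only [conj, decide_eq_true_eq] at h2
        funext j
        by_cases hj : j = i
        · rw [hj, Function.update_self]
          have := h2 i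
          rw [Function.update_self] at this
          simpa using this
        · rw [Function.update_of_ne hj]
          have := h2 j
          rwa [Function.update_of_ne hj] at this
    · rintro (h | h)
      · rw [h]
        have h1 : conj n (fun _ => true) = true := by simp [conj]
        have h2 : conj n (Function.update (fun _ => true) i (!true)) = false := by
          simp only [conj, decide_eq_false_iff_not, not_forall]
          exact ⟨i, by simp⟩
        rw [h1, h2]
        simp
      · have h1 : conj n x = false := by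
          rw [h]
          simp only [conj, decide_eq_false_iff_not, not_forall]
          exact ⟨i, by simp⟩
        have h2 : Function.update x i (!(x i)) = fun _ => true := by
          rw [h]
          funext j
          by_cases hj : j = i
          · rw [hj]
            simp
          · simp [Function.update_of_ne hj]
        rw [h2, h1]
        simp [conj]
  rw [e, Finset.card_pair]
  · norm_num
  · intro h
    have := congrFun h i
    simp at this

/-- the inequality with the constant `C` fails for `AND_n` if the following one holds -/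
lemma violates (n : ℕ) {a r : ℝ} (ha0 : 0 ≤ a) (ha1 : a ≤ 1) (hr0 : 0 ≤ r)
    (hr : r * (1 + a) = 1) {C : ℝ}
    (h : C * (1 + a - r ^ n * (1 + a + n * a ^ 2 - n)) < 2 * (1 - 1 / 2 ^ n)) :
    ∃ Q : FractionalQueryAlgorithm n, Q.A = harmonicExtension (conj n) ∧ Q.Computes (conj n) ∧
      C * ∑ i, Q.revealment i * influence (conj n) i < variance (conj n) := by
  refine ⟨(andJump n ha0 ha1 hr0 hr).alg (conj n), rfl, and_computes n ha0 ha1 hr0 hr, ?_⟩
  simp_rw [influence_conj]
  rw [← Finset.sum_mul, sum_revealment, variance_conj]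
  have h2 : (0 : ℝ) < 2 / 2 ^ n := by positivity
  calc C * ((1 + a - r ^ n * (1 + a + n * a ^ 2 - n)) * (2 / 2 ^ n))
      = (C * (1 + a - r ^ n * (1 + a + n * a ^ 2 - n))) * (2 / 2 ^ n) := by ring
    _ < (2 * (1 - 1 / 2 ^ n)) * (2 / 2 ^ n) := mul_lt_mul_of_pos_right h h2
    _ = 4 / 2 ^ n * (1 - 1 / 2 ^ n) := by ring

lemma numeric (n : ℕ) (hn : 2 ≤ n) :
    (1 : ℝ) + 7 / 10 - (10 / 17) ^ n * (1 + 7 / 10 + n * (7 / 10) ^ 2 - n)
      < 2 * (1 - 1 / 2 ^ n) := by
  have key : ∀ n : ℕ, 5 ≤ n → (n : ℝ) * (10 / 17) ^ n ≤ 2 / 5 ∧ (1 : ℝ) / 2 ^ n ≤ 1 / 32 := by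
    intro n hn
    induction n, hn using Nat.le_induction with
    | base => norm_num
    | succ n hn ih =>
      obtain ⟨h1, h2⟩ := ih
      have hn' : (5 : ℝ) ≤ n := by exact_mod_cast hn
      constructor
      · have h3 : (0 : ℝ) < (10 / 17) ^ n := by positivity
        rw [pow_succ]
        push_cast
        nlinarith
      · rw [pow_succ]
        have h3 : (0 : ℝ) < 1 / 2 ^ n := by positivity
        have : (1 : ℝ) / (2 ^ n * 2) = 1 / 2 ^ n / 2 := by field_simp
        rw [this]
        linarith
  rcases Nat.lt_or_ge n 5 with h | h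
  · interval_cases n <;> norm_num
  · obtain ⟨h1, h2⟩ := key n h
    have h3 : (0 : ℝ) < (10 / 17) ^ n := by positivity
    nlinarith

/-! ### the constant two for the conjunction -/

section Upper

variable {n : ℕ} (Q : FractionalQueryAlgorithm n)

lemma stopped_aesm (i : Fin n) :
    @AEStronglyMeasurable Q.Ω ℝ _ Q.mΩ Q.mΩ (fun ω => Q.stopped ω i) Q.P := by
  let _ := Q.mΩ
  have h1 : ∀ N : ℕ, StronglyMeasurable (stoppedProcess Q.X Q.τ N) := fun N =>
    StronglyAdapted.stronglyMeasurable_stoppedProcess_of_discrete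
      (Filtration.stronglyAdapted_natural Q.meas) Q.stopping N
  have h2 : ∀ N : ℕ, StronglyMeasurable (fun ω => stoppedProcess Q.X Q.τ N ω i) := fun N =>
    (continuous_apply i).comp_stronglyMeasurable (h1 N)
  refine aestronglyMeasurable_of_tendsto_ae atTop (fun N => (h2 N).aestronglyMeasurable) ?_
  filter_upwards [Q.terminal] with ω hω
  unfold FractionalQueryAlgorithm.stopped
  by_cases h : Q.τ ω = ⊤
  · rw [if_pos h]
    have h3 : ∀ N : ℕ, stoppedProcess Q.X Q.τ N ω = Q.X N ω := fun N =>
      stoppedProcess_eq_of_le (by rw [h]; exact le_top)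
    simp_rw [h3]
    exact (continuous_apply i).continuousAt.tendsto.comp hω
  · rw [if_neg h]
    apply tendsto_const_nhds.congr'
    obtain ⟨k, hk⟩ := WithTop.ne_top_iff_exists.1 h
    filter_upwards [eventually_ge_atTop k] with N hN
    have h3 : stoppedProcess Q.X Q.τ N ω = Q.X (Q.τ ω).untopA ω :=
      stoppedProcess_eq_of_ge (by rw [← hk]; exact_mod_cast hN)
    rw [h3]

lemma stopped_mem : ∀ᵐ ω ∂(Q.P), ∀ i, Q.stopped ω i ∈ Set.Icc (-1 : ℝ) 1 := by
  filter_upwards [Q.terminal] with ω hω i
  unfold FractionalQueryAlgorithm.stopped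
  by_cases h : Q.τ ω = ⊤
  · rw [if_pos h]
    have h1 : Tendsto (fun t => Q.X t ω i) atTop (𝓝 (Q.Xinf ω i)) :=
      (continuous_apply i).continuousAt.tendsto.comp hω
    exact isClosed_Icc.mem_of_tendsto h1 (Eventually.of_forall fun t => Q.range t ω i)
  · rw [if_neg h]
    exact Q.range _ _ _

lemma Xinf_vec : ∀ᵐ ω ∂(Q.P), ∃ x : Fin n → Bool, Q.Xinf ω = vec x := by
  let _ := Q.mΩ
  have _ := Q.prob
  have hX : AEMeasurable Q.Xinf Q.P :=
    aemeasurable_of_tendsto_metrizable_ae atTop (fun t => (Q.meas t).measurable.aemeasurable)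
      Q.terminal
  have hm : ∀ x : Fin n → Bool, NullMeasurableSet {ω | Q.Xinf ω = vec x} Q.P := fun x =>
    hX.nullMeasurable (measurableSet_singleton (vec x))
  have hd : Pairwise (Function.onFun (AEDisjoint Q.P)
      fun x : Fin n → Bool => {ω | Q.Xinf ω = vec x}) := by
    intro x y hxy
    apply Disjoint.aedisjoint
    rw [Set.disjoint_left]
    intro ω h1 h2
    simp only [Set.mem_ofPred_eq] at h1 h2
    exact hxy (vec_inj (h1.symm.trans h2))
  have h1 : Q.P (⋃ x : Fin n → Bool, {ω | Q.Xinf ω = vec x}) = 1 := by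
    rw [measure_iUnion₀ hd hm, tsum_fintype]
    simp_rw [Q.law]
    rw [Finset.sum_const, Finset.card_univ, Fintype.card_fun, Fintype.card_bool, Fintype.card_fin,
      nsmul_eq_mul]
    push_cast
    exact ENNReal.mul_inv_cancel (by positivity) (by simp)
  have h2 := (prob_compl_eq_zero_iff₀ (NullMeasurableSet.iUnion hm)).2 h1
  rw [ae_iff]
  refine measure_mono_null (fun ω hω => ?_) h2
  simp only [Set.mem_ofPred_eq, not_exists] at hω
  simp only [Set.mem_compl_iff, Set.mem_iUnion, Set.mem_ofPred_eq, not_exists]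
  exact hω

lemma harmonic_conj (y : Fin n → ℝ) :
    harmonicExtension (conj n) y = 2 * ∏ i, ((1 + y i) / 2) - 1 := by
  have e : ∀ x : Fin n → Bool, sgn (conj n x) * ∏ i, ((1 + sgn (x i) * y i) / 2)
      = - pw y x + if x = (fun _ => true) then 2 * pw y x else 0 := by
    intro x
    by_cases h : x = fun _ => true
    · rw [if_pos h, h]
      simp only [conj, sgn, pw, implies_true, decide_true, if_true]
      ring
    · rw [if_neg h]
      have : conj n x = false := by
        simp only [conj, decide_eq_false_iff_not]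
        exact fun h' => h (funext h')
      rw [this]
      simp only [sgn, pw, Bool.false_eq_true, if_false]
      ring
  unfold harmonicExtension
  simp_rw [e]
  rw [Finset.sum_add_distrib, Finset.sum_neg_distrib, sum_pw, Finset.sum_ite_eq',
    if_pos (Finset.mem_univ _)]
  simp only [pw, sgn, if_true, one_mul]
  ring

lemma one_le_revealment (hn : 1 ≤ n) (hA : Q.A = harmonicExtension (conj n))
    (hQ : Q.Computes (conj n)) : 1 ≤ ∑ i, Q.revealment i := by
  let _ := Q.mΩ
  have _ := Q.prob
  have hint : ∀ i, Integrable (fun ω => Q.stopped ω i ^ 2) Q.P := by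
    intro i
    refine Integrable.of_bound ((stopped_aesm Q i).pow 2) 1 ?_
    filter_upwards [stopped_mem Q] with ω hω
    have := hω i
    rw [Real.norm_eq_abs, abs_of_nonneg (sq_nonneg _)]
    nlinarith [this.1, this.2]
  have h1 : ∑ i, Q.revealment i = ∫ ω, ∑ i, Q.stopped ω i ^ 2 ∂Q.P :=
    (integral_finsetSum _ fun i _ => hint i).symm
  rw [h1]
  have h2 : (1 : ℝ) = ∫ _, (1 : ℝ) ∂Q.P := by simp
  rw [h2]
  refine integral_mono_ae (integrable_const _) (integrable_finsetSum _ fun i _ => hint i) ?_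
  filter_upwards [stopped_mem Q, Xinf_vec Q, hQ] with ω h3 h4 h5
  obtain ⟨x, hx⟩ := h4
  have h6 := h5 x hx
  rw [hA, harmonic_conj] at h6
  suffices h : ∃ i, Q.stopped ω i ^ 2 = 1 by
    obtain ⟨i, hi⟩ := h
    calc (1 : ℝ) = Q.stopped ω i ^ 2 := hi.symm
      _ ≤ ∑ i, Q.stopped ω i ^ 2 :=
        Finset.single_le_sum (f := fun i => Q.stopped ω i ^ 2) (fun i _ => sq_nonneg _)
          (Finset.mem_univ i)
  have hfac : ∀ i, (0 : ℝ) ≤ (1 + Q.stopped ω i) / 2 ∧ (1 + Q.stopped ω i) / 2 ≤ 1 := fun i =>
    ⟨by linarith [(h3 i).1], by linarith [(h3 i).2]⟩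
  have hs : sgn (conj n x) = 1 ∨ sgn (conj n x) = -1 := by cases conj n x <;> simp [sgn]
  rcases hs with hs | hs
  · rw [hs] at h6
    have h7 : ∏ i, ((1 + Q.stopped ω i) / 2) = 1 := by linarith
    refine ⟨⟨0, hn⟩, ?_⟩
    have h8 : ∏ i, ((1 + Q.stopped ω i) / 2) ≤ (1 + Q.stopped ω ⟨0, hn⟩) / 2 := by
      rw [← Finset.mul_prod_erase Finset.univ _ (Finset.mem_univ (⟨0, hn⟩ : Fin n))]
      calc _ ≤ (1 + Q.stopped ω ⟨0, hn⟩) / 2 * 1 :=
            mul_le_mul_of_nonneg_left (Finset.prod_le_one (fun i _ => (hfac i).1)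
              (fun i _ => (hfac i).2)) (hfac _).1
        _ = _ := mul_one _
    have h9 := (h3 ⟨0, hn⟩).2
    have h10 : Q.stopped ω ⟨0, hn⟩ = 1 := by linarith
    rw [h10]
    norm_num
  · rw [hs] at h6
    have h7 : ∏ i, ((1 + Q.stopped ω i) / 2) = 0 := by linarith
    obtain ⟨i, -, hi⟩ := Finset.prod_eq_zero_iff.1 h7
    refine ⟨i, ?_⟩
    have : Q.stopped ω i = -1 := by linarith
    rw [this]
    norm_num

lemma upper (hn : 1 ≤ n) (hA : Q.A = harmonicExtension (conj n)) (hQ : Q.Computes (conj n)) :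
    variance (conj n) ≤
      2 * (1 - 1 / 2 ^ n) * ∑ i, Q.revealment i * influence (conj n) i := by
  simp_rw [influence_conj]
  rw [← Finset.sum_mul, variance_conj]
  have h1 := one_le_revealment Q hn hA hQ
  have h2 : (0 : ℝ) ≤ 1 - 1 / 2 ^ n := by
    rw [sub_nonneg, div_le_one (by positivity)]
    exact one_le_pow₀ (by norm_num)
  have h3 : (0 : ℝ) < 2 ^ n := by positivity
  calc 4 / 2 ^ n * (1 - 1 / 2 ^ n) = 2 * (1 - 1 / 2 ^ n) * (1 * (2 / 2 ^ n)) := by ring
    _ ≤ 2 * (1 - 1 / 2 ^ n) * ((∑ i, Q.revealment i) * (2 / 2 ^ n)) := by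
      gcongr

end Upper

/-- **The OSSS inequality for fractional query algorithms fails by a factor of two.** (1) The OSSS
inequality fails for the conjunction `AND_n` of `n` bits, for every `n ≥ 2`. (2) For every constant
`C < 2` and all large `n` some fractional query algorithm computes `AND_n` with zero error and
satisfies `C ∑ δ_i Inf_i < Var`. (3) The constant `2` is exact for conjunctions: one has
`Var ≤ 2 (1 - 2^{-n}) ∑ δ_i Inf_i` for every fractional query algorithm that computes `AND_n` with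
zero error. The output map is the harmonic extension of the function. -/
theorem result :
    (∀ n : ℕ, 2 ≤ n → ∃ Q : FractionalQueryAlgorithm n,
      Q.A = harmonicExtension (conj n) ∧ Q.Computes (conj n) ∧
        ∑ i, Q.revealment i * influence (conj n) i < variance (conj n)) ∧
    (∀ C : ℝ, C < 2 → ∃ N : ℕ, ∀ n ≥ N, ∃ Q : FractionalQueryAlgorithm n,
      Q.A = harmonicExtension (conj n) ∧ Q.Computes (conj n) ∧
        C * ∑ i, Q.revealment i * influence (conj n) i < variance (conj n)) ∧
    (∀ n : ℕ, 1 ≤ n → ∀ Q : FractionalQueryAlgorithm n,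
      Q.A = harmonicExtension (conj n) → Q.Computes (conj n) →
        variance (conj n) ≤
          2 * (1 - 1 / 2 ^ n) * ∑ i, Q.revealment i * influence (conj n) i) := by
  refine ⟨?_, ?_, fun n hn Q hA hQ => upper Q hn hA hQ⟩
  · intro n hn
    have := violates n (a := 7 / 10) (r := 10 / 17) (C := 1) (by norm_num) (by norm_num)
      (by norm_num) (by norm_num) (by rw [one_mul]; exact numeric n hn)
    simpa using this
  · intro C hC
    set a : ℝ := min 1 ((2 - C) / (2 * (|C| + 1))) with ha
    have hC' : 0 < |C| + 1 := by positivity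
    have ha0 : 0 < a := lt_min one_pos (div_pos (by linarith) (by positivity))
    have ha1 : a ≤ 1 := min_le_left _ _
    have ha2 : a ≤ (2 - C) / (2 * (|C| + 1)) := min_le_right _ _
    have hCa : C * (1 + a) < 2 := by
      have h1 : C * a ≤ |C| * a := mul_le_mul_of_nonneg_right (le_abs_self C) ha0.le
      have h2 : (|C| + 1) * a ≤ (2 - C) / 2 := by
        calc (|C| + 1) * a ≤ (|C| + 1) * ((2 - C) / (2 * (|C| + 1))) :=
              mul_le_mul_of_nonneg_left ha2 hC'.le
          _ = (2 - C) / 2 := by field_simp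
      nlinarith
    set r : ℝ := (1 + a)⁻¹ with hr
    have hr1 : r * (1 + a) = 1 := inv_mul_cancel₀ (by positivity)
    have hr0 : 0 ≤ r := by positivity
    have hr2 : r < 1 := inv_lt_one_of_one_lt₀ (by linarith)
    have t1 : Tendsto (fun n : ℕ => r ^ n) atTop (𝓝 0) :=
      tendsto_pow_atTop_nhds_zero_of_lt_one hr0 hr2
    have t2 : Tendsto (fun n : ℕ => (n : ℝ) * r ^ n) atTop (𝓝 0) :=
      tendsto_self_mul_const_pow_of_lt_one hr0 hr2
    have t3 : Tendsto (fun n : ℕ => (1 / 2 : ℝ) ^ n) atTop (𝓝 0) :=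
      tendsto_pow_atTop_nhds_zero_of_lt_one (by norm_num) (by norm_num)
    have t4 : Tendsto (fun n : ℕ => C * (1 + a - r ^ n * (1 + a + n * a ^ 2 - n))) atTop
        (𝓝 (C * (1 + a))) := by
      have : Tendsto (fun n : ℕ => C * (1 + a - (r ^ n * (1 + a) + n * r ^ n * (a ^ 2 - 1))))
          atTop (𝓝 (C * (1 + a - (0 * (1 + a) + 0 * (a ^ 2 - 1))))) :=
        (((t1.mul_const _).add (t2.mul_const _)).const_sub _).const_mul C
      simp only [zero_mul, add_zero, sub_zero] at this
      refine this.congr fun n => ?_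
      ring
    have t5 : Tendsto (fun n : ℕ => (2 : ℝ) * (1 - 1 / 2 ^ n)) atTop (𝓝 2) := by
      have : Tendsto (fun n : ℕ => (2 : ℝ) * (1 - (1 / 2) ^ n)) atTop (𝓝 (2 * (1 - 0))) :=
        (t3.const_sub 1).const_mul 2
      simp only [sub_zero, mul_one] at this
      refine this.congr fun n => ?_
      rw [one_div_pow]
    obtain ⟨N, hN⟩ := eventually_atTop.1 (t4.eventually_lt t5 hCa)
    exact ⟨N, fun n hn => violates n ha0.le ha1 hr0 hr1 (hN n hn)⟩

end Pool.Agent.Results.MP_ebdc6e_an.EveryConstantBelowTwo
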